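import Mathlib

/-!
Choice of the block length with explicit dependence on the parameter `b`.
-/

set_option autoImplicit false
set_option maxHeartbeats 4000000

namespace Pool.Agent.Y873.CQ

/-- `exists_L_sigma` with a lower bound for `σ / L` in terms of `b`. -/
lemma exists_L_sigma_quant {p1 : ℝ} (hp0 : 0 < p1) (hp1 : p1 < 1) :
    ∃ c1 : ℝ, 0 < c1 ∧ ∀ b : ℝ, 0 < b → b ≤ 1 → ∃ (L : ℕ) (σ : ℝ), 2 ≤ L ∧ 0 < σ ∧ σ < 1 ∧
      (2 / (b / L)) ^ σ * (Real.exp (-√(L:ℝ)) ^ σ + p1 ^ (1 - σ)) ≤ Real.exp (-2 * σ) ∧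
      c1 / (1 + Real.log (1 / b)) ^ 3 ≤ σ / L := by
  set γ : ℝ := -Real.log p1 / 2 with hγ
  have hγ0 : 0 < γ := by
    have := Real.log_neg hp0 hp1
    rw [hγ]; linarith
  have hlogp : Real.log p1 = -2 * γ := by rw [hγ]; ring
  set q : ℝ := 1 - Real.exp (-(γ / 2)) with hq
  have hq0 : 0 < q := by
    have : Real.exp (-(γ / 2)) < 1 := Real.exp_lt_one_iff.2 (by linarith)
    rw [hq]; linarith
  set T : ℝ := max (Real.exp γ) (1 - Real.log q / γ) with hT
  have hT1 : Real.exp γ ≤ T := le_max_left _ _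
  have hT2 : 1 - Real.log q / γ ≤ T := le_max_right _ _
  have hT0 : 1 ≤ T := by
    have : (1:ℝ) ≤ Real.exp γ := Real.one_le_exp hγ0.le
    linarith
  have hTγ : γ - γ * T ≤ Real.log q := by
    have h1 : γ * (1 - Real.log q / γ) ≤ γ * T := by gcongr
    have h2 : γ * (1 - Real.log q / γ) = γ - Real.log q := by field_simp
    linarith
  set A : ℝ := 25 * T ^ 2 with hA
  have hA25 : 25 ≤ A := by rw [hA]; nlinarith
  refine ⟨γ / (5376 * T * A ^ 2), by positivity, ?_⟩
  intro b hb hb1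
  set c : ℝ := 2 * Real.exp 2 / b with hc
  have hc0 : 0 < c := by rw [hc]; positivity
  have hlogb : 0 ≤ Real.log (1 / b) := Real.log_nonneg (by rw [le_div_iff₀ hb]; linarith)
  have hlogc : Real.log c = Real.log 2 + 2 + Real.log (1 / b) := by
    have : c = 2 * Real.exp 2 * (1 / b) := by rw [hc]; ring
    rw [this, Real.log_mul (by positivity) (by positivity), Real.log_mul (by norm_num)
      (Real.exp_pos _).ne', Real.log_exp]
  have hlog2 : 0 < Real.log 2 := Real.log_pos (by norm_num)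
  have hlog2' : Real.log 2 < 1 := by have := Real.log_two_lt_d9; linarith
  set y : ℝ := Real.log c + 1 with hy
  have hy1 : 1 ≤ y := by rw [hy, hlogc]; linarith
  have hy4 : y ≤ 4 * (1 + Real.log (1 / b)) := by rw [hy, hlogc]; linarith
  have hAy : 25 ≤ A * y := by nlinarith
  set L : ℕ := ⌈(A * y) ^ 2⌉₊ with hL
  have hLge : (A * y) ^ 2 ≤ (L:ℝ) := Nat.le_ceil _
  have hLlt : (L:ℝ) < (A * y) ^ 2 + 1 := Nat.ceil_lt_add_one (by positivity)
  have hL625 : (625:ℝ) ≤ L := by nlinarith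
  have hL0 : (0:ℝ) < L := by linarith
  have hL2 : 2 ≤ L := by
    have : (2:ℝ) ≤ L := by linarith
    exact_mod_cast this
  have hLle : (L:ℝ) ≤ (A * y + 1) ^ 2 := by nlinarith
  have hsqrtL : A * y ≤ √(L:ℝ) := Real.le_sqrt_of_sq_le hLge
  -- logarithm of `L`
  have hs0 : 0 ≤ √(A * y) := Real.sqrt_nonneg _
  have hss : √(A * y) * √(A * y) = A * y := Real.mul_self_sqrt (by linarith)
  have hlogL : Real.log L ≤ 4 * √(A * y) := by
    have h1 : (L:ℝ) ≤ (1 + √(A * y)) ^ 4 := by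
      refine hLle.trans ?_
      have h2 : A * y + 1 ≤ (1 + √(A * y)) ^ 2 := by nlinarith
      have h3 : (A * y + 1) ^ 2 ≤ ((1 + √(A * y)) ^ 2) ^ 2 := pow_le_pow_left₀ (by linarith) h2 2
      calc (A * y + 1) ^ 2 ≤ ((1 + √(A * y)) ^ 2) ^ 2 := h3
        _ = (1 + √(A * y)) ^ 4 := by ring
    have h4 := Real.log_le_log hL0 h1
    rw [Real.log_pow] at h4
    have h5 := Real.log_le_sub_one_of_pos (show 0 < 1 + √(A * y) by linarith)
    push_cast at h4
    linarith
  have hyy : y ≤ y ^ 2 := by nlinarith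
  have hTy0 : 0 ≤ T ^ 2 * y := by positivity
  have hsqrtAy : √(A * y) ≤ 5 * T * y := by
    refine Real.sqrt_le_iff.2 ⟨by positivity, ?_⟩
    calc A * y = 25 * T ^ 2 * y := by rw [hA]
      _ ≤ 25 * T ^ 2 * y ^ 2 := by gcongr
      _ = (5 * T * y) ^ 2 := by ring
  have hlogcL : Real.log (c * L) = Real.log c + Real.log L := Real.log_mul hc0.ne' hL0.ne'
  have hup : Real.log (c * L) ≤ 21 * T * y := by
    rw [hlogcL]
    have h1 : Real.log c ≤ y := by rw [hy]; linarith
    have h2 : y ≤ T * y := by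
      calc y = 1 * y := (one_mul y).symm
        _ ≤ T * y := by gcongr
    linarith
  have hlow : 4 * γ ≤ Real.log (c * L) := by
    have h1 : T ^ 4 ≤ (L:ℝ) := by
      have h2 : T ^ 2 ≤ A * y := by
        have h3 : T ^ 2 * 1 ≤ T ^ 2 * (25 * y) := by gcongr; linarith
        calc T ^ 2 = T ^ 2 * 1 := (mul_one _).symm
          _ ≤ T ^ 2 * (25 * y) := h3
          _ = A * y := by rw [hA]; ring
      calc T ^ 4 = (T ^ 2) ^ 2 := by ring
        _ ≤ (A * y) ^ 2 := pow_le_pow_left₀ (by positivity) h2 2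
        _ ≤ L := hLge
    have h4 := Real.log_le_log (by positivity) h1
    rw [Real.log_pow] at h4
    have h5 : γ ≤ Real.log T := by
      rw [← Real.log_exp γ]; exact Real.log_le_log (Real.exp_pos _) hT1
    have h6 : 0 ≤ Real.log c := by rw [hlogc]; linarith
    rw [hlogcL]
    push_cast at h4
    linarith
  have hlog0 : 0 < Real.log (c * L) := by linarith
  set σ : ℝ := γ / Real.log (c * L) with hσ
  have hσ0 : 0 < σ := by rw [hσ]; positivity
  have hσ4 : σ ≤ 1 / 4 := by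
    rw [hσ, div_le_iff₀ hlog0]; linarith
  have hσγ : σ * Real.log (c * L) = γ := by rw [hσ]; field_simp
  have hTratio : T ≤ √(L:ℝ) / Real.log (c * L) := by
    rw [le_div_iff₀ hlog0]
    calc T * Real.log (c * L) ≤ T * (21 * T * y) := by gcongr
      _ ≤ A * y := by rw [hA]; linarith
      _ ≤ √(L:ℝ) := hsqrtL
  have hL1 : Real.exp (γ - γ * (√(L:ℝ) / Real.log (c * L))) + Real.exp (-γ + 2 * γ * σ) ≤ 1 := by
    have h1 : Real.exp (γ - γ * (√(L:ℝ) / Real.log (c * L))) ≤ q := by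
      rw [← Real.exp_log hq0]
      apply Real.exp_le_exp.2
      have : γ * T ≤ γ * (√(L:ℝ) / Real.log (c * L)) := by gcongr
      linarith
    have h2 : Real.exp (-γ + 2 * γ * σ) ≤ Real.exp (-(γ / 2)) := by
      apply Real.exp_le_exp.2
      nlinarith
    rw [hq] at h1
    linarith
  refine ⟨L, σ, hL2, hσ0, by linarith, ?_, ?_⟩
  · have e1 : (2 / (b / L)) ^ σ = Real.exp (γ - 2 * σ) := by
      have h1 : 2 / (b / L) = c * L * Real.exp (-2) := by
        rw [hc, Real.exp_neg]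
        field_simp
      rw [h1, Real.rpow_def_of_pos (by positivity), Real.log_mul (by positivity) (by positivity),
        Real.log_exp]
      congr 1
      rw [← hσγ]; ring
    have e2 : Real.exp (-√(L:ℝ)) ^ σ = Real.exp (-√(L:ℝ) * σ) := by
      rw [← Real.exp_mul]
    have e3 : p1 ^ (1 - σ) = Real.exp (-2 * γ * (1 - σ)) := by
      rw [Real.rpow_def_of_pos hp0, hlogp]
    rw [e1, e2, e3, mul_add, ← Real.exp_add, ← Real.exp_add]
    have e4 : γ - 2 * σ + -√(L:ℝ) * σ = -2 * σ + (γ - γ * (√(L:ℝ) / Real.log (c * L))) := by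
      rw [hσ]; ring
    have e5 : γ - 2 * σ + -2 * γ * (1 - σ) = -2 * σ + (-γ + 2 * γ * σ) := by ring
    rw [e4, e5, Real.exp_add, Real.exp_add (-2 * σ), ← mul_add]
    calc _ ≤ Real.exp (-2 * σ) * 1 := by
          apply mul_le_mul_of_nonneg_left hL1 (by positivity)
      _ = _ := mul_one _
  · have hw0 : 0 < 1 + Real.log (1 / b) := by linarith
    have h1 : γ / (21 * T * y) ≤ σ := by
      rw [hσ]; exact div_le_div_of_nonneg_left hγ0.le hlog0 hup
    have h2 : (L:ℝ) ≤ 4 * (A * y) ^ 2 := by nlinarith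
    have h3 : γ / (21 * T * y) / (4 * (A * y) ^ 2) ≤ σ / L := by
      apply div_le_div₀ hσ0.le h1 hL0 h2
    refine le_trans ?_ h3
    have e6 : γ / (5376 * T * A ^ 2) / (1 + Real.log (1 / b)) ^ 3
        = γ / (5376 * T * A ^ 2 * (1 + Real.log (1 / b)) ^ 3) := div_div _ _ _
    have e7 : γ / (21 * T * y) / (4 * (A * y) ^ 2) = γ / (21 * T * y * (4 * (A * y) ^ 2)) :=
      div_div _ _ _
    rw [e6, e7]
    apply div_le_div_of_nonneg_left hγ0.le (by positivity)
    have h4 : y ^ 3 ≤ (4 * (1 + Real.log (1 / b))) ^ 3 := pow_le_pow_left₀ (by linarith) hy4 3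
    calc 21 * T * y * (4 * (A * y) ^ 2) = 84 * T * A ^ 2 * y ^ 3 := by ring
      _ ≤ 84 * T * A ^ 2 * (4 * (1 + Real.log (1 / b))) ^ 3 := by gcongr
      _ = 5376 * T * A ^ 2 * (1 + Real.log (1 / b)) ^ 3 := by ring

end Pool.Agent.Y873.CQ
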